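import Pool.Agent.Y305.GD.Fin

/-!
# MP_e2f52c_an, Q1: genuine boundary singularities of dimension one

Stronger form of the starting result `GenuineCantor` (positive dimension): there is a Dir-minimizing
`3/2`-valued function (`m = n = Q = 2`) on the unit disc of the plane, with interface the real
diameter and a `C^∞` datum `φ`, whose set of genuine boundary singularities has Hausdorff dimension
`1 = m - 1`, the dimension of the interface itself. All other points of the interface are regular.
The definitions are those of the starting result (`Pool/Agent/TH300/Defs.lean`), and `IsRegularPt`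
(`Pool/Agent/Y305/GD/Reg.lean`).

The example: `gp = [[F]] + [[F - q]]` above, `gm = [[M]]` below, all sheets holomorphic. Here
`q(z) = Q(exp(2πiz))` with `Q` holomorphic in the disc, smooth up to the circle and vanishing exactly
on a Cantor set of dimension one of the circle (library of `MP_08407f_an.GenuineDimensionOne`), and
`M` agrees on the gaps of the Cantor set alternately with `F` and with `F - q`.
-/

set_option autoImplicit false

open MeasureTheory Metric Set
open scoped ContDiff ENNReal

open Pool.Agent.TH300 Pool.Agent.Y305.GD

namespace Pool.Agent.Results.MP_e2f52c_an.GenuineDimensionOne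

/-- There is a Dir-minimizing `3/2`-valued function on the unit disc with smooth interface whose
genuine boundary singularities form a set of Hausdorff dimension one; the points of the interface
which are not genuine singularities are regular. -/
theorem result :
    ∃ (φ : ℝ → ℂ) (gp : ℂ → Fin (1 + 1) → ℂ) (gm : ℂ → Fin 1 → ℂ),
      ContDiff ℝ ∞ φ ∧ IsDirMinimizing 1 (ball 0 1) φ gp gm ∧
        dimH {p | IsGenuine 1 (ball 0 1) gp gm p} = 1 ∧
        ∀ p ∈ ball (0 : ℂ) 1, p.im = 0 →
          (IsRegularPt 1 (ball 0 1) gp gm p ↔ ¬ IsGenuine 1 (ball 0 1) gp gm p) :=
  full

end Pool.Agent.Results.MP_e2f52c_an.GenuineDimensionOne
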